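import Pool.Agent.Q69.IMMain

/-!
Indicator elements for Choquet decompositions of invariant means (MP_06f7ba_an, Q1): disproof.

For a direct sum `Γ` of `ℵ₁` copies of `ℤ/2` there are an invariant mean `m`, a Choquet
decomposition `σ` of `m` and a `σ`-measurable set `E` of extreme invariant means such that no
translation invariant indicator element `w` of `L²(m)` satisfies
`m (f w) = ∫ ν(f) 1_E(ν) dσ(ν)` for all bounded `f`.

Definitions used (all in `Pool.Agent.Q69`): `Linf Γ` bounded functions `Γ → ℂ`; `tr` translation;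
`IsMean`, `InvMeans` (invariant) means with the topology of pointwise convergence on `Linf Γ`;
`MInv Γ` the space of invariant means; `extM Γ` its extreme points; the σ-algebra on `MInv Γ` is
generated by `extM Γ` and the Baire sets; `IsChoquet m σ`: `σ` is a Choquet decomposition of `m`;
`indC C` indicator function; `distSq m f g = m (|f-g|²)`; `IsInvIndicator m C`: the functions
`1_{C n}` form a Cauchy sequence in `L²(m)` whose limit is translation invariant.
-/

open Set Filter Topology MeasureTheory Q69IM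

namespace Pool.Agent.Results.MP_06f7ba_an.NoIndicator

lemma exists_index : ∃ (I : Type) (_ : LinearOrder I), Nonempty I ∧ WellFoundedLT I ∧
    ∀ f : ℕ → I, ∃ b, ∀ n, f n < b := by
  let o : Ordinal.{0} := Ordinal.omega 1
  have hpos : (0 : Ordinal.{0}) < o := Ordinal.omega_pos 1
  refine ⟨o.ToType, inferInstance, ⟨Ordinal.ToType.mk ⟨0, hpos⟩⟩, inferInstance, fun f => ?_⟩
  let e : Set.Iio o ≃o o.ToType := Ordinal.ToType.mk
  have hlt : ∀ n, ((e.symm (f n)).1 : Ordinal.{0}) < o := fun n => (e.symm (f n)).2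
  have hsup : (⨆ n, ((e.symm (f n)).1 : Ordinal.{0})) < o := Ordinal.iSup_lt_omega_one hlt
  have hlim : Order.IsSuccLimit o := Cardinal.isSuccLimit_omega 1
  have hs : Order.succ (⨆ n, ((e.symm (f n)).1 : Ordinal.{0})) < o := hlim.succ_lt hsup
  refine ⟨e ⟨Order.succ (⨆ n, ((e.symm (f n)).1 : Ordinal.{0})), hs⟩, fun n => ?_⟩
  rw [← e.symm.lt_iff_lt, e.symm_apply_apply]
  have h1 : ((e.symm (f n)).1 : Ordinal.{0}) ≤ ⨆ n, ((e.symm (f n)).1 : Ordinal.{0}) :=
    Ordinal.le_iSup _ n
  exact Order.lt_succ_of_le h1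

/-- There are a discrete abelian group, an invariant mean, a Choquet decomposition and a measurable
set of extreme invariant means for which no invariant indicator element exists. -/
theorem result : ∃ (Γ : Type) (_ : AddCommGroup Γ) (m : MInv Γ) (σ : Measure (MInv Γ))
    (E : Set (MInv Γ)), IsChoquet m σ ∧ MeasurableSet E ∧ E ⊆ extM Γ ∧
      ¬ ∃ C : ℕ → Set Γ, IsInvIndicator m.1 C ∧
        ∀ f : Linf Γ, Tendsto (fun n => m.1 (f * indC (C n))) atTop
          (𝓝 (∫ ν, E.indicator (fun ν => ν.1 f) ν ∂σ)) := by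
  obtain ⟨I, _, _, _, hI⟩ := exists_index
  exact ⟨GG I, inferInstance, main hI⟩

end Pool.Agent.Results.MP_06f7ba_an.NoIndicator
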